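import Pool.Agent.Work.MP_c2ab8b_gt.K8.Top
import Mathlib.Analysis.Convex.KreinMilman

/- The inscribed polytope with at most eight vertices of maximum surface area. -/

noncomputable section
namespace Pool.Agent.Results.MP_c2ab8b_gt.EightVertices
open Real MeasureTheory Set

/-- `Q` is a convex polytope in three-space with the origin in its interior, with at most `K` vertices
(extreme points), all of them on the unit sphere. -/
def Inscribed (K : ℕ) (Q : Set (EuclideanSpace ℝ (Fin 3))) : Prop :=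
  (∃ S : Set (EuclideanSpace ℝ (Fin 3)), S.Finite ∧ Q = convexHull ℝ S) ∧ 0 ∈ interior Q ∧
    (Q.extremePoints ℝ).encard ≤ K ∧ ∀ v ∈ Q.extremePoints ℝ, ‖v‖ = 1

/-- The surface area: the two-dimensional Hausdorff measure of the boundary, normalised to agree with
Lebesgue measure on planes. -/
def surfaceArea (Q : Set (EuclideanSpace ℝ (Fin 3))) : ENNReal :=
  Measure.euclideanHausdorffMeasure 2 (frontier Q)

/-- The convex hull of the eight points (±a, 0, c), (0, ±a, -c), (±d, 0, -b), (0, ±d, b), where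
c = √(1 - a²) and d = √(1 - b²). -/
def poly (a b : ℝ) : Set (EuclideanSpace ℝ (Fin 3)) :=
  convexHull ℝ (range ![WithLp.toLp 2 ![a, 0, √(1 - a ^ 2)], WithLp.toLp 2 ![-a, 0, √(1 - a ^ 2)],
    WithLp.toLp 2 ![0, a, -√(1 - a ^ 2)], WithLp.toLp 2 ![0, -a, -√(1 - a ^ 2)],
    WithLp.toLp 2 ![√(1 - b ^ 2), 0, -b], WithLp.toLp 2 ![0, √(1 - b ^ 2), b],
    WithLp.toLp 2 ![-√(1 - b ^ 2), 0, -b], WithLp.toLp 2 ![0, -√(1 - b ^ 2), b]])

/-- The function 4 a √(d² + (c - b)²) + 4 √(d² (c + b)² + (2 a b + d (c - b))² + d² (d - a)²), where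
c = √(1 - a²) and d = √(1 - b²). -/
def F (a b : ℝ) : ℝ :=
  4 * a * √(√(1 - b ^ 2) ^ 2 + (√(1 - a ^ 2) - b) ^ 2) +
    4 * √(√(1 - b ^ 2) ^ 2 * (√(1 - a ^ 2) + b) ^ 2 + (2 * a * b + √(1 - b ^ 2) * (√(1 - a ^ 2) - b)) ^ 2 +
      √(1 - b ^ 2) ^ 2 * (√(1 - b ^ 2) - a) ^ 2)

open Pool.Agent.Work.MP_c2ab8b_gt Pool.Agent.Work.MP_c2ab8b_gt.K8

theorem param {Q : Set V} (h : Inscribed 8 Q) :
    ∃ X : Fin 8 → V, (∀ i, dt (X i) (X i) = 1) ∧ Q = K8.Hu X := by
  obtain ⟨⟨S, hS, e⟩, h0, hc, hn⟩ := h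
  have fin : (Q.extremePoints ℝ).Finite := finite_of_encard_le_coe hc
  have cQ : IsCompact Q := e ▸ hS.isCompact_convexHull ℝ
  have km := closure_convexHull_extremePoints cQ (e ▸ convex_convexHull ℝ S)
  rw [(fin.isClosed_convexHull ℝ).closure_eq] at km
  obtain ⟨v, hv⟩ := cQ.extremePoints_nonempty ⟨0, interior_subset h0⟩
  have := fin.fintype
  have : Nonempty (Q.extremePoints ℝ) := ⟨⟨v, hv⟩⟩
  obtain ⟨f⟩ : Nonempty (Q.extremePoints ℝ ↪ Fin 8) := Function.Embedding.nonempty_of_card_le (by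
    rw [← coe_fintypeCard] at hc
    rw [Fintype.card_fin]
    exact_mod_cast hc)
  refine ⟨fun i => (Function.invFun f i : Q.extremePoints ℝ), fun i => by
    rw [dt_self, hn _ (Function.invFun f i).2]; norm_num, ?_⟩
  exact km.symm.trans (congrArg _
    ((Function.invFun_surjective f.injective).range_comp Subtype.val |>.trans Subtype.range_coe).symm)

theorem result : ∃ a b : ℝ,
    (0.599532198296 < a ∧ a < 0.599532198297) ∧ (0.281640237962 < b ∧ b < 0.281640237963) ∧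
    (8.1222355021 < F a b ∧ F a b < 8.1222355022) ∧
    (∀ a' ∈ Icc (0.5995 : ℝ) 0.5996, ∀ b' ∈ Icc (0.2816 : ℝ) 0.2817,
      F a' b' ≤ F a b ∧ (F a' b' = F a b → a' = a ∧ b' = b)) ∧
    IsGreatest (surfaceArea '' {Q | Inscribed 8 Q}) (ENNReal.ofReal (F a b)) ∧
    ∀ Q, Inscribed 8 Q → (surfaceArea Q = ENNReal.ofReal (F a b) ↔
      ∃ T : EuclideanSpace ℝ (Fin 3) ≃ₗᵢ[ℝ] EuclideanSpace ℝ (Fin 3), Q = T '' poly a b) := by
  obtain ⟨u, v, h, m, g⟩ := main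
  have M := h.m
  have b := h
  simp only [P0, U0, V0, abs_le] at b
  have u0 : 0 ≤ u := by linarith [b.1.1]
  have v0 : 0 ≤ 2 * v - 1 := by linarith [b.2.1]
  have e1 : 1 - √u ^ 2 = 1 - u := by rw [sq_sqrt u0]
  have e2 : 1 - √(2 * v - 1) ^ 2 = 2 - 2 * v := by rw [sq_sqrt v0]; ring
  have eP : poly √u √(2 * v - 1) = K8.Hu (XQ u v) := by unfold poly; rw [e1, e2]; rfl
  have eF : F √u √(2 * v - 1) = Fv u v := by unfold F; rw [e1, e2, ← h.cfg.2]; exact M.area.2.2.symm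
  have sub : (K8.Hu (XQ u v)).extremePoints ℝ ⊆ range (XQ u v) := extremePoints_convexHull_subset
  have ar : surfaceArea (K8.Hu (XQ u v)) = ENNReal.ofReal (Fv u v) :=
    le_antisymm (g _ M.un M.int).1 (h.cfg.2 ▸ M.low)
  refine ⟨√u, √(2 * v - 1), ⟨lt_sqrt_of_sq_lt (by linarith [b.1.1]), (sqrt_lt' (by norm_num)).2 (by linarith [b.1.2])⟩,
    ⟨lt_sqrt_of_sq_lt (by linarith [b.2.1]), (sqrt_lt' (by norm_num)).2 (by linarith [b.2.2])⟩, eF ▸ h.fin.1,
    fun a' ha b' hb => ?_, ?_⟩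
  · obtain ⟨C, e, e'⟩ := (M4.of ha hb).area
    obtain ⟨m1, m2⟩ := m _ C
    rw [← e, e', ← eF] at m1 m2
    refine ⟨m1, fun k => ?_⟩
    obtain ⟨x, y⟩ := m2 k.ge
    simp only [pu, pv, yz, List.getD_cons_succ, List.getD_cons_zero] at x y
    rw [show u = a' ^ 2 by linarith, show 2 * v - 1 = b' ^ 2 by linarith, sqrt_sq (by linarith [ha.1]),
      sqrt_sq (by linarith [hb.1])]
    exact ⟨rfl, rfl⟩
  rw [eF, eP]
  refine ⟨⟨⟨_, ⟨⟨_, finite_range _, rfl⟩, M.int, ?_, fun x hx => ?_⟩, ar⟩, ?_⟩, fun Q hQ => ⟨?_, ?_⟩⟩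
  · refine (encard_le_encard sub).trans ?_
    rw [← image_univ]
    exact (encard_image_le _ _).trans (by simp)
  · obtain ⟨i, rfl⟩ := sub hx
    exact (pow_eq_one_iff_of_nonneg (norm_nonneg _) two_ne_zero).1 ((dt_self _).symm.trans (M.un i))
  · rintro _ ⟨Q, hQ, rfl⟩
    obtain ⟨X, hu, rfl⟩ := param hQ
    exact (g X hu hQ.2.1).1
  · obtain ⟨X, hu, rfl⟩ := param hQ
    exact (g X hu hQ.2.1).2
  · rintro ⟨T, rfl⟩
    rw [← ar]
    exact (congrArg _ (T.toHomeomorph.image_frontier _).symm).trans (T.isometry.euclideanHausdorffMeasure_image _)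

end Pool.Agent.Results.MP_c2ab8b_gt.EightVertices
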